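import Mathlib

/-!
# Commuting infinite subgroups: basic tools (helper42, for MP_c4a8aa_al)
-/

set_option autoImplicit false

namespace Pool.Agent.Helper42CIS

open scoped commutatorElement

variable {G : Type*} [Group G]

/-- `G` contains two infinite subgroups that commute elementwise. -/
def CIS (G : Type*) [Group G] : Prop :=
  ∃ A B : Subgroup G, (A : Set G).Infinite ∧ (B : Set G).Infinite ∧
    ∀ a ∈ A, ∀ b ∈ B, a * b = b * a

/-- Pigeonhole: an infinite subgroup acting by conjugation on a finite set `F` (with finitely many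
values) has an infinite subset of elements that commute with `F`. -/
theorem infinite_commute {A : Subgroup G} (hA : (A : Set G).Infinite) (F : Set G)
    (hF : F.Finite) (h : ∀ x ∈ F, {z | ∃ y ∈ A, z = y * x * y⁻¹}.Finite) :
    {a : G | a ∈ A ∧ ∀ x ∈ F, a * x = x * a}.Infinite := by
  classical
  have : Finite F := hF
  -- the finite target
  let T : F → Set G := fun x => {z | ∃ y ∈ A, z = y * (x : G) * y⁻¹}
  have : ∀ x : F, Finite (T x) := fun x => h x x.2
  have : Infinite A := hA.to_subtype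
  let φ : A → ((x : F) → T x) := fun y x => ⟨(y : G) * (x : G) * (y : G)⁻¹, ⟨y, y.2, rfl⟩⟩
  obtain ⟨v, hv⟩ := Finite.exists_infinite_fiber φ
  have := hv
  obtain ⟨y0, hy0⟩ : (φ ⁻¹' {v}).Nonempty := Set.nonempty_coe_sort.1 inferInstance
  have hinj : Set.InjOn (fun y : A => ((y0 : G)⁻¹ * (y : G))) (φ ⁻¹' {v}) := by
    intro y _ z _ hyz
    exact Subtype.ext (mul_left_cancel hyz)
  have hinf : ((fun y : A => ((y0 : G)⁻¹ * (y : G))) '' (φ ⁻¹' {v})).Infinite :=
    (Set.infinite_coe_iff.1 hv).image hinj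
  refine hinf.mono ?_
  rintro _ ⟨y, hy, rfl⟩
  refine ⟨A.mul_mem (A.inv_mem y0.2) y.2, ?_⟩
  intro x hx
  have h1 : φ y = φ y0 := by
    rw [Set.mem_preimage, Set.mem_singleton_iff] at hy hy0
    rw [hy, hy0]
  have h2 : (y : G) * x * (y : G)⁻¹ = (y0 : G) * x * (y0 : G)⁻¹ := by
    have := congrArg (fun f => ((f ⟨x, hx⟩ : T ⟨x, hx⟩) : G)) h1
    simpa [φ] using this
  have h3 : (y : G) * x = (y0 : G) * x * (y0 : G)⁻¹ * (y : G) := by
    rw [← h2]; group
  show (y0 : G)⁻¹ * (y : G) * x = x * ((y0 : G)⁻¹ * (y : G))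
  rw [mul_assoc, h3]; group

/-- An infinite subgroup with finite conjugacy classes contains an infinite abelian subgroup. -/
theorem cis_of_fc (D : Subgroup G) (hD : (D : Set G).Infinite)
    (h : ∀ x ∈ D, {z | ∃ y ∈ D, z = y * x * y⁻¹}.Finite) : CIS G := by
  classical
  obtain ⟨M, -, hM⟩ := zorn_subset_nonempty
    {M : Set G | M ⊆ D ∧ ∀ x ∈ M, ∀ y ∈ M, x * y = y * x} (by
      intro c hc hchain hne
      refine ⟨⋃₀ c, ⟨Set.sUnion_subset fun s hs => (hc hs).1, ?_⟩, fun s hs =>
        Set.subset_sUnion_of_mem hs⟩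
      rintro x ⟨s, hs, hxs⟩ y ⟨t, ht, hyt⟩
      rcases hchain.total hs ht with hst | hts
      · exact (hc ht).2 x (hst hxs) y hyt
      · exact (hc hs).2 x hxs y (hts hyt)) ∅
    ⟨Set.empty_subset _, fun x hx => absurd hx (Set.notMem_empty x)⟩
  obtain ⟨hMprop, hMmax⟩ := hM
  by_cases hfin : M.Finite
  · exfalso
    have hinf := infinite_commute hD M hfin (fun x hx => h x (hMprop.1 hx))
    obtain ⟨a, ha, haM⟩ := hinf.exists_notMem_finite hfin
    have hins : insert a M ∈ {M : Set G | M ⊆ D ∧ ∀ x ∈ M, ∀ y ∈ M, x * y = y * x} := by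
      refine ⟨Set.insert_subset ha.1 hMprop.1, ?_⟩
      rintro x (rfl | hx) y (rfl | hy)
      · rfl
      · exact ha.2 y hy
      · exact (ha.2 x hx).symm
      · exact hMprop.2 x hx y hy
    exact haM (hMmax hins (Set.subset_insert a M) (Set.mem_insert a M))
  · have hcomm : ∀ x ∈ Subgroup.closure M, ∀ y ∈ Subgroup.closure M, x * y = y * x := by
      have h1 : Subgroup.closure M ≤ Subgroup.centralizer M := by
        rw [Subgroup.closure_le]
        intro x hx
        rw [SetLike.mem_coe, Subgroup.mem_centralizer_iff]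
        intro y hy
        exact hMprop.2 y hy x hx
      have h2 : Subgroup.closure M ≤ Subgroup.centralizer (Subgroup.closure M : Set G) := by
        rw [Subgroup.closure_le]
        intro x hx
        rw [SetLike.mem_coe, Subgroup.mem_centralizer_iff]
        intro y hy
        have := h1 hy
        rw [Subgroup.mem_centralizer_iff] at this
        exact (this x hx).symm
      intro x hx y hy
      have := h2 hy
      rw [Subgroup.mem_centralizer_iff] at this
      exact this x hx
    have hinf : ((Subgroup.closure M : Subgroup G) : Set G).Infinite :=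
      Set.Infinite.mono Subgroup.subset_closure hfin
    exact ⟨_, _, hinf, hinf, hcomm⟩

/-- Two infinite subgroups that normalize each other and have finite intersection give
commuting infinite subgroups. -/
theorem cis_of_two (A B : Subgroup G) (hA : (A : Set G).Infinite) (hB : (B : Set G).Infinite)
    (hAB : ∀ a ∈ A, ∀ b ∈ B, b * a * b⁻¹ ∈ A) (hBA : ∀ a ∈ A, ∀ b ∈ B, a * b * a⁻¹ ∈ B)
    (hfin : ((A ⊓ B : Subgroup G) : Set G).Finite) : CIS G := by
  classical
  set F : Set G := ((A ⊓ B : Subgroup G) : Set G) with hFdef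
  have hFA : ∀ x ∈ F, ∀ y ∈ A, y * x * y⁻¹ ∈ F := by
    intro x hx y hy
    exact ⟨A.mul_mem (A.mul_mem hy hx.1) (A.inv_mem hy), hBA y hy x hx.2⟩
  have hFB : ∀ x ∈ F, ∀ y ∈ B, y * x * y⁻¹ ∈ F := by
    intro x hx y hy
    exact ⟨hAB x hx.1 y hy, B.mul_mem (B.mul_mem hy hx.2) (B.inv_mem hy)⟩
  let A1 : Subgroup G := A ⊓ Subgroup.centralizer F
  let B1 : Subgroup G := B ⊓ Subgroup.centralizer F
  have hA1 : (A1 : Set G).Infinite := by
    refine (infinite_commute hA F hfin ?_).mono ?_
    · intro x hx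
      refine hfin.subset ?_
      rintro z ⟨y, hy, rfl⟩
      exact hFA x hx y hy
    · rintro a ⟨ha, hc⟩
      refine Subgroup.mem_inf.2 ⟨ha, ?_⟩
      rw [Subgroup.mem_centralizer_iff]
      intro x hx
      exact (hc x hx).symm
  have hB1 : (B1 : Set G).Infinite := by
    refine (infinite_commute hB F hfin ?_).mono ?_
    · intro x hx
      refine hfin.subset ?_
      rintro z ⟨y, hy, rfl⟩
      exact hFB x hx y hy
    · rintro a ⟨ha, hc⟩
      refine Subgroup.mem_inf.2 ⟨ha, ?_⟩
      rw [Subgroup.mem_centralizer_iff]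
      intro x hx
      exact (hc x hx).symm
  -- conjugation of `A1` by `B1` is by central elements
  have key : ∀ a ∈ A1, ∀ b ∈ B1, ∃ z ∈ F, b * a * b⁻¹ = a * z := by
    intro a ha b hb
    refine ⟨a⁻¹ * (b * a * b⁻¹), ⟨A.mul_mem (A.inv_mem ha.1) (hAB a ha.1 b hb.1), ?_⟩, by group⟩
    have h1 : a⁻¹ * b * a⁻¹⁻¹ ∈ B := hBA a⁻¹ (A.inv_mem ha.1) b hb.1
    have h2 : a⁻¹ * (b * a * b⁻¹) = (a⁻¹ * b * a⁻¹⁻¹) * b⁻¹ := by group
    rw [h2]
    exact B.mul_mem h1 (B.inv_mem hb.1)
  have cA : ∀ a ∈ A1, ∀ z ∈ F, z * a = a * z := by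
    intro a ha z hz
    exact (Subgroup.mem_centralizer_iff.1 ha.2) z hz
  have cB : ∀ b ∈ B1, ∀ z ∈ F, z * b = b * z := by
    intro b hb z hz
    exact (Subgroup.mem_centralizer_iff.1 hb.2) z hz
  have hDB : ⁅A1, A1⁆ ≤ Subgroup.centralizer (B1 : Set G) := by
    rw [Subgroup.commutator_le]
    intro a ha a' ha'
    rw [Subgroup.mem_centralizer_iff]
    intro b hb
    obtain ⟨z, hz, hza⟩ := key a ha b hb
    obtain ⟨z', hz', hza'⟩ := key a' ha' b hb
    -- z, z' lie in `A1`
    have hzz : z ∈ A1 := by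
      have h1 : z = a⁻¹ * (b * a * b⁻¹) := by rw [hza]; group
      refine Subgroup.mem_inf.2 ⟨hz.1, ?_⟩
      rw [Subgroup.mem_centralizer_iff]
      intro x hx
      -- b a b⁻¹ centralizes F
      have h2 : ∀ x ∈ F, x * (b * a * b⁻¹) = (b * a * b⁻¹) * x := by
        intro x hx
        have e1 := cB b hb x hx
        have e2 := cA a ha x hx
        have e3 : x * b⁻¹ = b⁻¹ * x := by
          have := cB b⁻¹ (B1.inv_mem hb) x hx
          exact this
        calc x * (b * a * b⁻¹) = (x * b) * a * b⁻¹ := by group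
          _ = b * (x * a) * b⁻¹ := by rw [e1]; group
          _ = b * a * (x * b⁻¹) := by rw [e2]; group
          _ = (b * a * b⁻¹) * x := by rw [e3]; group
      have e4 : x * a⁻¹ = a⁻¹ * x := cA a⁻¹ (A1.inv_mem ha) x hx
      rw [h1]
      calc x * (a⁻¹ * (b * a * b⁻¹)) = (x * a⁻¹) * (b * a * b⁻¹) := by group
        _ = a⁻¹ * (x * (b * a * b⁻¹)) := by rw [e4]; group
        _ = a⁻¹ * (b * a * b⁻¹) * x := by rw [h2 x hx]; group
    have e1 : z * a = a * z := cA a ha z hz
    have e2 : z * a' = a' * z := cA a' ha' z hz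
    have e3 : z' * a = a * z' := cA a ha z' hz'
    have e4 : z' * a' = a' * z' := cA a' ha' z' hz'
    have e5 : z' * z = z * z' := cA z hzz z' hz'
    have hconj : b * ⁅a, a'⁆ * b⁻¹ = ⁅a, a'⁆ := by
      have h1 : b * ⁅a, a'⁆ * b⁻¹ = ⁅b * a * b⁻¹, b * a' * b⁻¹⁆ := by
        simp only [commutatorElement_def]; group
      rw [h1, hza, hza']
      have i1 : z * a⁻¹ = a⁻¹ * z := by
        have := cA a⁻¹ (A1.inv_mem ha) z hz; exact this
      have i2 : z * a'⁻¹ = a'⁻¹ * z := cA a'⁻¹ (A1.inv_mem ha') z hz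
      have i3 : z' * a⁻¹ = a⁻¹ * z' := cA a⁻¹ (A1.inv_mem ha) z' hz'
      have i4 : z' * a'⁻¹ = a'⁻¹ * z' := cA a'⁻¹ (A1.inv_mem ha') z' hz'
      simp only [commutatorElement_def, mul_inv_rev]
      have c1 : Commute z a := e1
      have c2 : Commute z a' := e2
      have c3 : Commute z' a := e3
      have c4 : Commute z' a' := e4
      have c5 : Commute z' z := e5
      calc a * z * (a' * z') * (z⁻¹ * a⁻¹) * (z'⁻¹ * a'⁻¹)
          = a * (z * a') * z' * z⁻¹ * a⁻¹ * z'⁻¹ * a'⁻¹ := by group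
        _ = a * a' * (z * z') * z⁻¹ * a⁻¹ * z'⁻¹ * a'⁻¹ := by rw [c2.eq]; group
        _ = a * a' * (z' * a⁻¹) * z'⁻¹ * a'⁻¹ := by rw [← c5.eq]; group
        _ = a * a' * a⁻¹ * a'⁻¹ := by rw [i3]; group
    have h2 : b * ⁅a, a'⁆ = ⁅a, a'⁆ * b := by
      have := congrArg (fun t => t * b) hconj
      simpa [mul_assoc] using this
    exact h2
  by_cases hD : ((⁅A1, A1⁆ : Subgroup G) : Set G).Finite
  · refine cis_of_fc A1 hA1 ?_
    intro x hx
    refine (hD.image (fun d => d * x)).subset ?_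
    rintro z ⟨y, hy, rfl⟩
    refine ⟨⁅y, x⁆, Subgroup.commutator_mem_commutator hy hx, ?_⟩
    simp only [commutatorElement_def]; group
  · refine ⟨⁅A1, A1⁆, B1, hD, hB1, ?_⟩
    intro a ha b hb
    have := hDB ha
    rw [Subgroup.mem_centralizer_iff] at this
    exact (this b hb).symm

/-- Finitely many infinite subgroups, all normalized by a subgroup `H` that contains them, whose
intersection is finite, give commuting infinite subgroups. -/
theorem cis_of_family {ι : Type*} [Finite ι] [Nonempty ι] (H : Subgroup G) (N : ι → Subgroup G)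
    (hle : ∀ i, N i ≤ H) (hnorm : ∀ i, ∀ x ∈ N i, ∀ h ∈ H, h * x * h⁻¹ ∈ N i)
    (hinf : ∀ i, (N i : Set G).Infinite)
    (hfin : {g : G | ∀ i, g ∈ N i}.Finite) : CIS G := by
  classical
  by_contra hno
  have := Fintype.ofFinite ι
  have step : ∀ T : Finset ι, (((H ⊓ ⨅ i ∈ T, N i : Subgroup G)) : Set G).Infinite := by
    intro T
    induction T using Finset.induction_on with
    | empty =>
      simp only [Finset.notMem_empty, iInf_false, iInf_top, le_top, inf_of_le_left]
      exact (hinf (Classical.arbitrary ι)).mono (hle _)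
    | insert j T _ ih =>
      intro hf
      apply hno
      refine cis_of_two (H ⊓ ⨅ i ∈ T, N i) (N j) ih (hinf j) ?_ ?_ ?_
      · intro a ha b hb
        obtain ⟨ha1, ha2⟩ := Subgroup.mem_inf.1 ha
        refine Subgroup.mem_inf.2
          ⟨H.mul_mem (H.mul_mem (hle j hb) ha1) (H.inv_mem (hle j hb)), ?_⟩
        rw [Subgroup.mem_iInf] at ha2 ⊢
        intro i
        rw [Subgroup.mem_iInf]
        intro hi
        have h3 := ha2 i
        rw [Subgroup.mem_iInf] at h3
        exact hnorm i a (h3 hi) b (hle j hb)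
      · intro a ha b hb
        exact hnorm j b hb a (Subgroup.mem_inf.1 ha).1
      · refine hf.subset ?_
        intro x hx
        obtain ⟨hx1, hx2⟩ := Subgroup.mem_inf.1 hx
        obtain ⟨hx11, hx12⟩ := Subgroup.mem_inf.1 hx1
        refine Subgroup.mem_inf.2 ⟨hx11, ?_⟩
        rw [Subgroup.mem_iInf] at hx12 ⊢
        intro i
        rw [Subgroup.mem_iInf]
        intro hi
        rcases Finset.mem_insert.1 hi with rfl | hi
        · exact hx2
        · have h3 := hx12 i
          rw [Subgroup.mem_iInf] at h3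
          exact h3 hi
  refine step Finset.univ (hfin.subset ?_)
  intro x hx i
  have hx := (Subgroup.mem_inf.1 hx).2
  rw [Subgroup.mem_iInf] at hx
  have h3 := hx i
  rw [Subgroup.mem_iInf] at h3
  exact h3 (Finset.mem_univ i)

/-- In a group without commuting infinite subgroups only finitely many elements have a finite
conjugacy class. -/
theorem finite_fc (hno : ¬ CIS G) : {x : G | {z | ∃ y : G, z = y * x * y⁻¹}.Finite}.Finite := by
  classical
  by_contra hinf
  apply hno
  let D : Subgroup G :=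
    { carrier := {x : G | {z | ∃ y : G, z = y * x * y⁻¹}.Finite}
      mul_mem' := by
        intro a b ha hb
        refine (Set.Finite.image2 (fun u v => u * v) ha hb).subset ?_
        rintro z ⟨y, rfl⟩
        refine ⟨y * a * y⁻¹, ⟨y, rfl⟩, y * b * y⁻¹, ⟨y, rfl⟩, ?_⟩
        group
      one_mem' := by
        refine (Set.finite_singleton (1 : G)).subset ?_
        rintro z ⟨y, rfl⟩
        simp
      inv_mem' := by
        intro a ha
        refine (Set.Finite.image (fun u => u⁻¹) ha).subset ?_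
        rintro z ⟨y, rfl⟩
        refine ⟨y * a * y⁻¹, ⟨y, rfl⟩, ?_⟩
        group }
  refine cis_of_fc D hinf ?_
  intro x hx
  exact Set.Finite.subset hx (fun z ⟨y, _, hz⟩ => ⟨y, hz⟩)

end Pool.Agent.Helper42CIS
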